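import Pool.Agent.W791.OP.Main

/-!
# MP_5ab436_an, Q1: optimal potentials for `λ_k` have a bounded set of finiteness

Everything is stated on `ℝᵈ`, that is `EuclideanSpace ℝ (Fin d)`, with Lebesgue measure.

Idea of the proof.  Let `u_1, ..., u_k` be eigenfunctions of an optimal potential `V` with
eigenvalue at most `Λ = λ_k(V)`, put `A(R) = ∑ ∫ u_i²` and `M(R) = ∫ V^(-p)`, both over the
outer region `{√(1+|x|²) > R}`.

* Replacing `V` by `+∞` outside a large ball and rescaling gives a competitor, and the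
  minimality of `V` yields `M(R + l) ≤ C l⁻² A(R)`.
* The eigenvalue equation tested with cut off eigenfunctions and the coercivity of the form on
  functions living where the mass `∫ V^(-p)` is small yield
  `A(R + l) ≤ C l⁻² τ² A(R)` as soon as `M(R) ≤ τ^(d+4)`.

Iterating the two inequalities over `l = 2⁻ⁿ` gives `A = 0`, and then `M = 0`, outside a ball.
-/

set_option autoImplicit false
open MeasureTheory
open scoped ENNReal ContDiff RealInnerProductSpace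

namespace Pool.Agent.Results.MP_5ab436_an.BoundedFinitenessSets

/-- `G` is the weak gradient of `u` on all of `ℝᵈ`: integration by parts holds against every
smooth compactly supported test function `φ` and in every direction `v`. -/
def IsWeakGradient {d : ℕ} (u : EuclideanSpace ℝ (Fin d) → ℝ)
    (G : EuclideanSpace ℝ (Fin d) → EuclideanSpace ℝ (Fin d)) : Prop :=
  ∀ φ : EuclideanSpace ℝ (Fin d) → ℝ, ContDiff ℝ ∞ φ → HasCompactSupport φ →
    ∀ v : EuclideanSpace ℝ (Fin d),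
      ∫ x, u x * fderiv ℝ φ x v = -∫ x, ⟪G x, v⟫ * φ x

/-- `u` belongs to `H¹_V(ℝᵈ)` and `G` is its weak gradient: `u` and `G` are square integrable,
`G` is the weak gradient of `u`, and `∫ V u² < ∞` (with `∞ * 0 = 0`). -/
def MemH1V {d : ℕ} (V : EuclideanSpace ℝ (Fin d) → ℝ≥0∞) (u : EuclideanSpace ℝ (Fin d) → ℝ)
    (G : EuclideanSpace ℝ (Fin d) → EuclideanSpace ℝ (Fin d)) : Prop :=
  MemLp u 2 volume ∧ MemLp G 2 volume ∧ IsWeakGradient u G ∧ ∫⁻ x, V x * ‖u x‖ₑ ^ 2 < ⊤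

/-- The value `∫ |∇u|² + ∫ V u²` of the quadratic form, where `G` stands for `∇u`. -/
noncomputable def form {d : ℕ} (V : EuclideanSpace ℝ (Fin d) → ℝ≥0∞)
    (u : EuclideanSpace ℝ (Fin d) → ℝ)
    (G : EuclideanSpace ℝ (Fin d) → EuclideanSpace ℝ (Fin d)) : ℝ≥0∞ :=
  (∫⁻ x, ‖G x‖ₑ ^ 2) + ∫⁻ x, V x * ‖u x‖ₑ ^ 2

/-- `u_1, ..., u_k`, with weak gradients `G_1, ..., G_k`, are elements of `H¹_V(ℝᵈ)` which are
linearly independent as elements of `L²`, so they span a `k`-dimensional subspace. -/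
def IsFrame {d k : ℕ} (V : EuclideanSpace ℝ (Fin d) → ℝ≥0∞)
    (u : Fin k → EuclideanSpace ℝ (Fin d) → ℝ)
    (G : Fin k → EuclideanSpace ℝ (Fin d) → EuclideanSpace ℝ (Fin d)) : Prop :=
  (∀ i, MemH1V V (u i) (G i)) ∧
    ∀ c : Fin k → ℝ, c ≠ 0 → ¬ ((fun x => ∑ i, c i • u i x) =ᵐ[volume] 0)

/-- The eigenvalue `λ_k(V)` of `-Δ + V` by the min-max formula: the infimum over the
`k`-dimensional subspaces of `H¹_V(ℝᵈ)` of the supremum of the Rayleigh quotient
`(∫ |∇u|² + ∫ V u²) / ∫ u²` over the nonzero elements `u = ∑ c_i u_i` of the subspace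
(the value is `∞` if there is no such subspace). -/
noncomputable def eigenvalue {d : ℕ} (k : ℕ) (V : EuclideanSpace ℝ (Fin d) → ℝ≥0∞) : ℝ≥0∞ :=
  ⨅ (u : Fin k → EuclideanSpace ℝ (Fin d) → ℝ)
    (G : Fin k → EuclideanSpace ℝ (Fin d) → EuclideanSpace ℝ (Fin d)) (_ : IsFrame V u G),
    ⨆ (c : Fin k → ℝ) (_ : c ≠ 0),
      form V (fun x => ∑ i, c i • u i x) (fun x => ∑ i, c i • G i x) /
        ∫⁻ x, ‖∑ i, c i • u i x‖ₑ ^ 2

/-- The class `𝒜_p`: Lebesgue measurable potentials `V : ℝᵈ → [0,∞]` with `∫ V^(-p) ≤ 1`, where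
`V^(-p) = 0` where `V = ∞` and `V^(-p) = ∞` where `V = 0`. -/
def Admissible {d : ℕ} (p : ℝ) (V : EuclideanSpace ℝ (Fin d) → ℝ≥0∞) : Prop :=
  AEMeasurable V volume ∧ ∫⁻ x, V x ^ (-p) ≤ 1

/-- `V` is an optimal potential for `λ_k`: it minimizes `λ_k` over `𝒜_p`. -/
def IsOptimal {d : ℕ} (p : ℝ) (k : ℕ) (V : EuclideanSpace ℝ (Fin d) → ℝ≥0∞) : Prop :=
  Admissible p V ∧ ∀ W : EuclideanSpace ℝ (Fin d) → ℝ≥0∞, Admissible p W →
    eigenvalue k V ≤ eigenvalue k W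

/-- For every `d ≥ 1`, `0 < p ≤ 1` and `k ≥ 1`, the set of finiteness `{V < ∞}` of every optimal
potential `V` for `λ_k` is contained, up to a null set, in a ball. -/
theorem result (d : ℕ) (hd : 1 ≤ d) (p : ℝ) (hp : 0 < p) (hp1 : p ≤ 1) (k : ℕ) (hk : 1 ≤ k)
    (V : EuclideanSpace ℝ (Fin d) → ℝ≥0∞) (hV : IsOptimal p k V) :
    ∃ R : ℝ, ∀ᵐ x, V x < ⊤ → ‖x‖ ≤ R := by
  have key : ∀ W : EuclideanSpace ℝ (Fin d) → ℝ≥0∞,
      eigenvalue k W = Pool.Agent.W791.OP.lam k W := fun _ => rfl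
  exact Pool.Agent.W791.OP.main hd hp hp1 hk hV.1.1 hV.1.2 fun W hW1 hW2 => by
    rw [← key, ← key]
    exact hV.2 W ⟨hW1, hW2⟩

end Pool.Agent.Results.MP_5ab436_an.BoundedFinitenessSets
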